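import Pool.Agent.ZGO.StmtsB

/-!
# MP_c4a8aa_al, ZGO, row CUG (helper44)
-/

set_option autoImplicit false

namespace Pool.Agent.ZGO.H44

open Pool.Agent.ZGO

theorem cug : Pool.Agent.ZGO.CugStmt := by
  intro P _ ψ X _ θ ρ hS H hHf hH
  have hψ' : ∀ h : H, ψ h ∈ H := fun h => hH h h.2
  refine ⟨(ψ.comp H.subtype).codRestrict H hψ', fun h => rfl, ?_⟩
  refine ⟨⟨hS.shf.inf, hS.shf.nil, hS.shf.fin, ?_, ?_⟩, hS.sur, ?_⟩
  · intro g x
    exact hS.shf.eqv (g : P) x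
  · intro g n x hx
    exact hS.shf.ker (g : P) n x hx
  · intro K hK hKst Y hY1 hY2
    refine hS.smp (K.map H.subtype) ?_ ?_ Y hY1 ?_
    · refine ⟨?_⟩
      rw [Subgroup.index_map_subtype]
      exact mul_ne_zero hK.index_ne_zero hHf.index_ne_zero
    · intro g hg
      obtain ⟨k, hk, rfl⟩ := Subgroup.mem_map.mp hg
      exact Subgroup.mem_map.mpr ⟨_, hKst k hk, rfl⟩
    · intro g hg y hy
      obtain ⟨k, hk, rfl⟩ := Subgroup.mem_map.mp hg
      exact hY2 k hk y hy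

end Pool.Agent.ZGO.H44
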