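import Pool.Agent.ZGO.StmtsB
import Pool.Agent.Helper27_ZTO.KER

/-!
# MP_c4a8aa_al, ZGO, row ONE (helper44)
-/

set_option autoImplicit false

namespace Pool.Agent.ZGO.H44

open Pool.Agent.ZGO

section

variable {P : Type} [Group P] {ψ : P →* P} {X : Type} [AddCommGroup X] {θ : X →+ X}
  {ρ : P →* AddMonoid.End X}

theorem rho_mul (ρ : P →* AddMonoid.End X) (a b : P) (x : X) : ρ (a * b) x = ρ a (ρ b x) := by
  rw [map_mul]
  rfl

theorem rho_one (ρ : P →* AddMonoid.End X) (x : X) : ρ 1 x = x := by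
  rw [map_one]
  rfl

theorem iter_sub (θ : X →+ X) (j : ℕ) (x y : X) :
    (⇑θ)^[j] (x - y) = (⇑θ)^[j] x - (⇑θ)^[j] y := by
  induction j generalizing x y with
  | zero => rfl
  | succ j ih =>
    rw [Function.iterate_succ_apply, Function.iterate_succ_apply, Function.iterate_succ_apply,
      map_sub, ih]

theorem iter_add (θ : X →+ X) (j : ℕ) (x y : X) :
    (⇑θ)^[j] (x + y) = (⇑θ)^[j] x + (⇑θ)^[j] y := by
  induction j generalizing x y with
  | zero => rfl
  | succ j ih =>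
    rw [Function.iterate_succ_apply, Function.iterate_succ_apply, Function.iterate_succ_apply,
      map_add, ih]

theorem iter_neg (θ : X →+ X) (j : ℕ) (x : X) :
    (⇑θ)^[j] (-x) = -(⇑θ)^[j] x := by
  induction j generalizing x with
  | zero => rfl
  | succ j ih =>
    rw [Function.iterate_succ_apply, Function.iterate_succ_apply, map_neg, ih]

theorem iter_zero (θ : X →+ X) (j : ℕ) : (⇑θ)^[j] (0 : X) = 0 := by
  induction j with
  | zero => rfl
  | succ j ih => rw [Function.iterate_succ_apply, map_zero, ih]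

/-- the subgroup which acts trivially on all the factors -/
def Hone (hS : Shift ψ θ ρ) : Subgroup P where
  carrier := {g | ∀ (j : ℕ) (x : X), (⇑θ)^[j + 1] x = 0 → (⇑θ)^[j] (ρ g x - x) = 0}
  one_mem' := by
    intro j x _
    rw [rho_one, sub_self, iter_zero]
  mul_mem' := by
    intro a b ha hb j x hx
    have h1 := ha j (ρ b x) (hS.ker b (j + 1) x hx)
    have h2 := hb j x hx
    have e : ρ (a * b) x - x = (ρ a (ρ b x) - ρ b x) + (ρ b x - x) := by
      rw [rho_mul]
      abel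
    rw [e, iter_add, h1, h2, add_zero]
  inv_mem' := by
    intro a ha j x hx
    have h1 := ha j (ρ a⁻¹ x) (hS.ker a⁻¹ (j + 1) x hx)
    have e : ρ a⁻¹ x - x = -(ρ a (ρ a⁻¹ x) - ρ a⁻¹ x) := by
      rw [← rho_mul, mul_inv_cancel, rho_one]
      abel
    rw [e, iter_neg, h1, neg_zero]

theorem mem_Hone (hS : Shift ψ θ ρ) (g : P) : g ∈ Hone hS ↔
    ∀ (j : ℕ) (x : X), (⇑θ)^[j + 1] x = 0 → (⇑θ)^[j] (ρ g x - x) = 0 := Iff.rfl

/-- the action on the factor `j` -/
theorem exists_rep (hS : Simp ψ θ ρ) (j : ℕ) : ∃ r : P →* Equiv.Perm {x : X // θ x = 0},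
    ∀ (g : P) (y : X) (z : {x : X // θ x = 0}), (⇑θ)^[j] y = z → (r g z : X) = (⇑θ)^[j] (ρ g y) := by
  have hsur : Function.Surjective ((⇑θ)^[j]) := hS.sur.iterate j
  choose s hs using fun z : {x : X // θ x = 0} => hsur (z : X)
  have hker : ∀ z : {x : X // θ x = 0}, ∀ y, (⇑θ)^[j] y = z → (⇑θ)^[j + 1] y = 0 := by
    intro z y hy
    rw [Function.iterate_succ_apply', hy, z.2]
  have hin : ∀ (g : P) (z : {x : X // θ x = 0}) (y : X), (⇑θ)^[j] y = z →
      θ ((⇑θ)^[j] (ρ g y)) = 0 := by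
    intro g z y hy
    have := hS.shf.ker g (j + 1) y (hker z y hy)
    rwa [Function.iterate_succ_apply'] at this
  have hwd : ∀ (g : P) (y y' : X), (⇑θ)^[j] y = (⇑θ)^[j] y' →
      (⇑θ)^[j] (ρ g y) = (⇑θ)^[j] (ρ g y') := by
    intro g y y' h
    have h1 : (⇑θ)^[j] (y - y') = 0 := by rw [iter_sub, h, sub_self]
    have h2 := hS.shf.ker g j (y - y') h1
    rw [map_sub, iter_sub, sub_eq_zero] at h2
    exact h2
  let F : P →* Function.End {x : X // θ x = 0} :=
    { toFun := fun g z => ⟨(⇑θ)^[j] (ρ g (s z)), hin g z (s z) (hs z)⟩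
      map_one' := by
        funext z
        apply Subtype.ext
        change (⇑θ)^[j] (ρ 1 (s z)) = (z : X)
        rw [rho_one, hs z]
      map_mul' := by
        intro a b
        funext z
        apply Subtype.ext
        change (⇑θ)^[j] (ρ (a * b) (s z)) = (⇑θ)^[j] (ρ a (s ⟨(⇑θ)^[j] (ρ b (s z)), _⟩))
        rw [rho_mul]
        apply hwd
        rw [hs] }
  refine ⟨F.toHomPerm, ?_⟩
  intro g y z hy
  change (⇑θ)^[j] (ρ g (s z)) = (⇑θ)^[j] (ρ g y)
  apply hwd
  rw [hs z, hy]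

end

theorem one (per : Pool.Agent.ZGO.PerStmt) (fnk : Pool.Agent.ZGO.FnkStmt) :
    Pool.Agent.ZGO.OneStmt := by
  intro P _ _ ψ X _ θ ρ hS
  have hfin : Finite {x : X // θ x = 0} := hS.shf.fin.to_subtype
  obtain ⟨-, hKfi, -, hKperm, -⟩ := Pool.Agent.ZTO.H27.ker P (Nat.card {x : X // θ x = 0})
  refine ⟨Hone hS.shf, ?_, ?_, fun g hg => hg⟩
  · have hle : Pool.Agent.ZTO.Ker P (Nat.card {x : X // θ x = 0}) ≤ Hone hS.shf := by
      intro g hg
      rw [mem_Hone]
      intro j x hx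
      obtain ⟨r, hr⟩ := exists_rep hS j
      have h1 := hKperm _ r le_rfl g hg
      have hz : θ ((⇑θ)^[j] x) = 0 := by rwa [Function.iterate_succ_apply'] at hx
      have h2 := hr g x ⟨(⇑θ)^[j] x, hz⟩ rfl
      rw [h1] at h2
      have h3 : (⇑θ)^[j] x = (⇑θ)^[j] (ρ g x) := h2
      rw [iter_sub, ← h3, sub_self]
    exact Subgroup.finiteIndex_of_le hle
  · intro g hg
    rw [mem_Hone] at hg ⊢
    intro j x hx
    cases j with
    | succ j =>
      rw [Function.iterate_succ_apply, map_sub, hS.shf.eqv]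
      apply hg j (θ x)
      rw [← Function.iterate_succ_apply]
      exact hx
    | zero =>
      obtain ⟨e, he, hper⟩ := per P ψ X θ ρ hS 1
      obtain ⟨-, hfn, -⟩ := fnk P ψ X θ ρ hS.shf
      obtain ⟨y, rfl⟩ := hS.sur.iterate e x
      have hy : (⇑θ)^[1 + e] y = 0 := by
        rw [Function.iterate_add_apply]
        exact hx
      have h1 := hfn e (ψ g) y
      have h2 := hper (ψ g) e y hy
      rw [iter_sub, sub_eq_zero] at h2
      have h3 : ρ (ψ g) ((⇑θ)^[e] y) = (⇑θ)^[e] y := by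
        rw [← h1]
        have h4 : (⇑ψ)^[e] (ψ g) = (⇑ψ)^[e] (ψ g) := rfl
        rw [h2]
        obtain ⟨e', rfl⟩ : ∃ e', e = e' + 1 := ⟨e - 1, by omega⟩
        rw [Function.iterate_succ_apply, hS.shf.eqv, Function.iterate_succ_apply]
        have h5 : (⇑θ)^[e' + 1] (θ y) = 0 := by
          rw [← Function.iterate_succ_apply, show (e' + 1).succ = 1 + (e' + 1) by omega]
          exact hy
        have h6 := hg e' (θ y) h5
        rw [iter_sub, sub_eq_zero] at h6
        exact h6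
      change ρ (ψ g) ((⇑θ)^[e] y) - (⇑θ)^[e] y = 0
      rw [h3, sub_self]

end Pool.Agent.ZGO.H44
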