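import Pool.Agent.ZGO.StmtsA
import Pool.Agent.Helper27_ZTO.KER

/-!
# MP_c4a8aa_al, ZGO, row UNB (helper44)
-/

set_option autoImplicit false

namespace Pool.Agent.ZGO.H44

open Pool.Agent.ZGO
open Pool.Agent.ZTO (Ker)

theorem unb (idx : Pool.Agent.ZGO.IdxStmt) : Pool.Agent.ZGO.UnbStmt := by
  intro G _ _ ψ hψ hd R hR k M0
  have hd0 : ψ.range.index ≠ 0 := by omega
  obtain ⟨hI1, hI2⟩ := idx G ψ hψ hd0
  have hr0 : R.index ≠ 0 := hR.index_ne_zero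
  obtain ⟨i, hi⟩ : ∃ i : ℕ, k * R.index ≤ ψ.range.index ^ i := by
    refine ⟨k * R.index, ?_⟩
    exact (Nat.lt_two_pow_self.le).trans (Nat.pow_le_pow_left hd _)
  refine ⟨M0 + ψ.range.index ^ i + R.index, by omega, ?_⟩
  obtain ⟨M, hM⟩ : ∃ M, M = M0 + ψ.range.index ^ i + R.index := ⟨_, rfl⟩
  rw [← hM]
  obtain ⟨hNn, hNf, hNψ, -, -, hN6, -⟩ := Pool.Agent.ZTO.H27.ker G M
  have hpow0 : ψ.range.index ^ i ≠ 0 := pow_ne_zero _ hd0
  have hN1 : Ker G M ≤ (itr ψ i).range := by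
    apply hN6
    · rw [hI1 i]
      exact hpow0
    · rw [hI1 i]
      omega
  have hN2 : Ker G M ≤ R := hN6 R hr0 (by omega)
  obtain ⟨h1, -, -⟩ := hI2 (Ker G M) hNn hNf (fun g hg => hNψ ψ g hg)
  have h2 : (Ker G M).relIndex ((Ker G M).comap (itr ψ i)) = ψ.range.index ^ i := by
    rw [h1 i, sup_eq_left.mpr hN1, hI1 i]
  have hCs : (Ker G M).comap (itr ψ i) ≤ Cs ψ (Ker G M) :=
    le_iSup (fun n => (Ker G M).comap (itr ψ n)) i
  have hfin : (Ker G M).relIndex (Cs ψ (Ker G M)) ≠ 0 := by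
    intro h
    have h3 : (Ker G M).relIndex (Cs ψ (Ker G M)) ∣ (Ker G M).index :=
      Subgroup.relIndex_dvd_index_of_normal (Ker G M) (Cs ψ (Ker G M))
    rw [h, zero_dvd_iff] at h3
    exact hNf.index_ne_zero h3
  have h4 : ψ.range.index ^ i ≤ (Ker G M).relIndex (Cs ψ (Ker G M)) := by
    rw [← h2]
    exact Subgroup.relIndex_le_of_le_right hCs hfin
  have hN3 : Ker G M ≤ Cs ψ (Ker G M) := by
    have : (Ker G M).comap (itr ψ 0) ≤ Cs ψ (Ker G M) :=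
      le_iSup (fun n => (Ker G M).comap (itr ψ n)) 0
    exact this
  have h5 : (Ker G M).relIndex (Cs ψ (Ker G M) ⊓ R)
      * (Cs ψ (Ker G M) ⊓ R).relIndex (Cs ψ (Ker G M)) = (Ker G M).relIndex (Cs ψ (Ker G M)) :=
    Subgroup.relIndex_mul_relIndex _ _ _ (le_inf hN3 hN2) inf_le_left
  have h6 : (Cs ψ (Ker G M) ⊓ R).relIndex (Cs ψ (Ker G M)) ≤ R.index := by
    rw [Subgroup.inf_relIndex_left]
    have h7 : R.relIndex ⊤ ≠ 0 := by
      rw [Subgroup.relIndex_top_right]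
      exact hr0
    have h8 := Subgroup.relIndex_le_of_le_right (H := R) (le_top : Cs ψ (Ker G M) ≤ ⊤) h7
    rwa [Subgroup.relIndex_top_right] at h8
  have h9 : k * R.index ≤ (Ker G M).relIndex (Cs ψ (Ker G M) ⊓ R) * R.index := by
    calc k * R.index ≤ ψ.range.index ^ i := hi
      _ ≤ (Ker G M).relIndex (Cs ψ (Ker G M)) := h4
      _ = _ := h5.symm
      _ ≤ _ := Nat.mul_le_mul_left _ h6
  exact Nat.le_of_mul_le_mul_right h9 (Nat.pos_of_ne_zero hr0)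

end Pool.Agent.ZGO.H44
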